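import Pool.Agent.Lib.MP_708c97_co.Example

/-!
A caterpillar of powers of paths. The vertex `(i, r)` lies in block `i`; the offsets `r < t + 2`
form the spine (the `t`-th power of a path), the offsets `r ≥ t + 2` form the arm of the block, which
continues the base `{0, 2, …, t}` as the `t`-th power of a path.
-/

set_option autoImplicit false

namespace Pool.Agent.Lib.MP_708c97_co

open SimpleGraph Finset

/-- position along the arm -/
def ap (t r : ℕ) : ℕ := if r = 0 then 0 else if r ≤ t then r - 1 else r - 2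

/-- offset of a position along the arm -/
def off (t p : ℕ) : ℕ := if p = 0 then 0 else if p < t then p + 1 else p + 2

theorem off_spec (t p : ℕ) : (p = 0 ∧ off t p = 0) ∨ (0 < p ∧ p < t ∧ off t p = p + 1) ∨
    (0 < p ∧ t ≤ p ∧ off t p = p + 2) := by
  unfold off
  split_ifs <;> omega

theorem ap_spec (t r : ℕ) : (r = 0 ∧ ap t r = 0) ∨ (0 < r ∧ r ≤ t ∧ ap t r + 1 = r) ∨
    (0 < r ∧ t < r ∧ ap t r = r - 2) := by
  unfold ap
  split_ifs <;> omega

theorem ap_off {t : ℕ} (ht : 2 ≤ t) (p : ℕ) : ap t (off t p) = p := by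
  have h1 := off_spec t p
  have h2 := ap_spec t (off t p)
  omega

/-- `x` is an earlier neighbour of `y` -/
def Lo (t : ℕ) (x y : ℕ × ℕ) : Prop :=
  (x.1 = y.1 ∧ x.2 < y.2 ∧ y.2 < t + 2 ∧ y.2 ≤ x.2 + t) ∨
  (x.1 + 1 = y.1 ∧ x.2 < t + 2 ∧ y.2 + 2 ≤ x.2) ∨
  (x.1 = y.1 ∧ x.2 < y.2 ∧ t + 2 ≤ y.2 ∧ x.2 ≠ 1 ∧ x.2 ≠ t + 1 ∧ y.2 - 2 ≤ ap t x.2 + t)

/-- the infinite caterpillar -/
def Cat (t : ℕ) : SimpleGraph (ℕ × ℕ) where
  Adj x y := Lo t x y ∨ Lo t y x
  symm := ⟨fun _ _ h => h.symm⟩
  loopless := ⟨fun x h => by simp only [Lo] at h; omega⟩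

theorem chain_of_sorted {R : ℕ → ℕ → Prop} : ∀ l : List ℕ, l.Pairwise (· < ·) →
    (∀ p ∈ l, ∀ q ∈ l, p < q → (∀ r ∈ l, ¬ (p < r ∧ r < q)) → R p q) → l.IsChain R
  | [], _, _ => by simp
  | [_], _, _ => by simp
  | p :: q :: l, h1, h2 => by
    rw [List.pairwise_cons] at h1
    have h3 := List.pairwise_cons.1 h1.2
    rw [List.isChain_cons_cons]
    refine ⟨h2 p (by simp) q (by simp) (h1.1 q (by simp)) fun r hr => ?_,
      chain_of_sorted (q :: l) h1.2 fun a ha b hb hab hr =>
        h2 a (List.mem_cons_of_mem _ ha) b (List.mem_cons_of_mem _ hb) hab fun r hr' => ?_⟩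
    · simp only [List.mem_cons] at hr
      rcases hr with rfl | rfl | hr
      · omega
      · omega
      · have := h3.1 r hr; omega
    · rcases List.mem_cons.1 hr' with rfl | hr'
      · have := h1.1 a ha; omega
      · exact hr r hr'

theorem count_all {P : ℕ → Prop} [DecidablePred P] {x : ℕ} :
    ∀ n, (∀ r, x ≤ r → r < x + n → P r) → Nat.count P (x + n) = Nat.count P x + n
  | 0, _ => rfl
  | n + 1, h => by
    rw [← add_assoc, Nat.count_succ, count_all n fun r h1 h2 => h r h1 (by omega),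
      if_pos (h _ (by omega) (by omega)), add_assoc]

theorem count_all' {P : ℕ → Prop} [DecidablePred P] {x y : ℕ} (hxy : x ≤ y)
    (h : ∀ r, x ≤ r → r < y → P r) : Nat.count P y + x = Nat.count P x + y := by
  obtain ⟨n, rfl⟩ := Nat.exists_eq_add_of_le hxy
  rw [count_all n h]
  omega

theorem count_not {P : ℕ → Prop} [DecidablePred P] (x : ℕ) : ∀ n,
    ((Ico x (x + n)).filter fun r => ¬ P r).card + Nat.count P (x + n) = n + Nat.count P x
  | 0 => by simp
  | n + 1 => by
    have := count_not (P := P) x n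
    rw [← add_assoc, Nat.Ico_succ_right_eq_insert_Ico (by omega), filter_insert, Nat.count_succ]
    by_cases h : P (x + n)
    · rw [if_neg (not_not.2 h), if_pos h]; omega
    · rw [if_pos h, if_neg h, card_insert_of_notMem (by simp)]; omega

variable {t N : ℕ} (s : ℕ × ℕ → Prop) [DecidablePred s]

/-- deleted vertices among the first offsets of a block -/
def gc (u x : ℕ) : ℕ := Nat.count (fun r => s (u, r)) x

/-- deleted vertices among the first positions of base and arm -/
def bc (t u x : ℕ) : ℕ := Nat.count (fun p => s (u, off t p)) x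

/-- the spine -/
def sg (t q : ℕ) : ℕ × ℕ := (q / (t + 2), q % (t + 2))

/-- deleted vertices among the first positions of the spine -/
def Gc (t q : ℕ) : ℕ := Nat.count (fun q => s (sg t q)) q

variable {s}

theorem gc_mono (u : ℕ) {x y : ℕ} (h : x ≤ y) : gc s u x ≤ gc s u y := Nat.count_monotone _ h

theorem bc_mono (u : ℕ) {x y : ℕ} (h : x ≤ y) : bc s t u x ≤ bc s t u y := Nat.count_monotone _ h

theorem bc_le_gc (u : ℕ) : ∀ p, bc s t u p ≤ gc s u (off t p)
  | 0 => by simp [bc]
  | p + 1 => by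
    have h1 := bc_le_gc u p
    have h2 := off_spec t p
    have h3 := off_spec t (p + 1)
    refine le_trans ?_ (gc_mono u (by omega : off t p + 1 ≤ off t (p + 1)))
    unfold bc gc at *
    rw [Nat.count_succ, Nat.count_succ]
    omega

theorem gc_arm (ht : 2 ≤ t) (u : ℕ) :
    ∀ n, gc s u (t + 2 + n) + bc s t u t = gc s u (t + 2) + bc s t u (t + n)
  | 0 => rfl
  | n + 1 => by
    have h1 := gc_arm ht u n
    have h2 : off t (t + n) = t + 2 + n := by have := off_spec t (t + n); omega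
    unfold bc gc at *
    rw [← add_assoc, ← add_assoc, Nat.count_succ, Nat.count_succ _ (t + n), h2]
    omega

theorem sg_eq (u : ℕ) {r : ℕ} (h : r < t + 2) : sg t (u * (t + 2) + r) = (u, r) := by
  unfold sg
  rw [mul_comm, Nat.mul_add_div (by omega), Nat.mul_add_mod, Nat.div_eq_of_lt h,
    Nat.mod_eq_of_lt h, add_zero]

theorem sg_ex (t q : ℕ) : ∃ u r, r < t + 2 ∧ q = u * (t + 2) + r :=
  ⟨q / (t + 2), q % (t + 2), Nat.mod_lt _ (by omega), (Nat.div_add_mod' _ _).symm⟩

theorem sg_adj {p q : ℕ} (h1 : p < q) (h2 : q ≤ p + t) : (Cat t).Adj (sg t p) (sg t q) := by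
  obtain ⟨u, r, hr, rfl⟩ := sg_ex t p
  rw [sg_eq u hr]
  by_cases h : q < u * (t + 2) + (t + 2)
  · obtain ⟨r', rfl⟩ : ∃ r', q = u * (t + 2) + r' := ⟨q - u * (t + 2), by omega⟩
    rw [sg_eq u (by omega)]
    exact Or.inl (Or.inl ⟨rfl, by simp only; omega, by simp only; omega, by simp only; omega⟩)
  · obtain ⟨r', rfl⟩ : ∃ r', q = (u + 1) * (t + 2) + r' :=
      ⟨q - (u + 1) * (t + 2), by rw [add_mul u]; omega⟩
    rw [add_mul u] at h2
    rw [sg_eq (u + 1) (by omega)]
    exact Or.inl (Or.inr (Or.inl ⟨rfl, hr, by simp only; omega⟩))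

theorem Gc_add (u : ℕ) : ∀ x ≤ t + 2, Gc s t (u * (t + 2) + x) = Gc s t (u * (t + 2)) + gc s u x
  | 0, _ => rfl
  | x + 1, h => by
    have h1 := Gc_add u x (by omega)
    unfold Gc gc at *
    rw [← add_assoc, Nat.count_succ, Nat.count_succ, sg_eq u (by omega), h1, add_assoc]

theorem Gc_mul : ∀ u, Gc s t (u * (t + 2)) = ∑ l ∈ range u, gc s l (t + 2)
  | 0 => by simp [Gc]
  | u + 1 => by rw [add_mul, one_mul, Gc_add u _ le_rfl, Gc_mul u, sum_range_succ]

/-- the free vertices of a living arm form a path that can be entered from the base -/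
theorem arm_list (ht : 2 ≤ t) {a i p : ℕ} (hal : bc s t i (t + a) < t) (hp : p < t)
    (hM : bc s t i (t + a) ≤ bc s t i t + p) :
    ∃ l : List (ℕ × ℕ), ((i, off t p) :: l).IsChain (Cat t).Adj ∧ l.Nodup ∧
      l.length + gc s i (t + 2 + a) = a + gc s i (t + 2) ∧
      ∀ z ∈ l, z.1 = i ∧ t + 2 ≤ z.2 ∧ z.2 < t + 2 + a ∧ ¬ s z := by
  set F := (Ico t (t + a)).filter fun r => ¬ s (i, off t r) with hF
  have hmem : ∀ q, q ∈ F.sort (· ≤ ·) ↔ (t ≤ q ∧ q < t + a) ∧ ¬ s (i, off t q) := fun q => by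
    rw [mem_sort, hF, mem_filter, mem_Ico]
  have hpw : (p :: F.sort (· ≤ ·)).Pairwise (· < ·) :=
    List.pairwise_cons.2 ⟨fun q hq => by have := (hmem q).1 hq; omega,
      (sortedLT_sort F).pairwise⟩
  have hinj : Function.Injective fun u => (i, off t u) := fun u v huv => by
    rw [← ap_off ht u, (Prod.mk.inj huv).2, ap_off ht]
  refine ⟨(F.sort (· ≤ ·)).map fun u => (i, off t u), ?_, (sort_nodup _ _).map hinj, ?_, ?_⟩
  · rw [← List.map_cons (f := fun u => (i, off t u)), List.isChain_map]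
    refine chain_of_sorted _ hpw fun u hu v hv huv hr => ?_
    have hu' : u = p ∨ t ≤ u := (List.mem_cons.1 hu).imp id fun h => ((hmem u).1 h).1.1
    have hv' : t ≤ v ∧ v < t + a := by
      rcases List.mem_cons.1 hv with rfl | hv
      · omega
      · exact ((hmem v).1 hv).1
    have h1 : bc s t i v + max t (u + 1) = bc s t i (max t (u + 1)) + v :=
      count_all' (by omega) fun r h1 h2 => by
        by_contra hn
        exact hr r (List.mem_cons_of_mem _ ((hmem r).2 ⟨by omega, hn⟩)) (by omega)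
    have h2 := bc_mono (s := s) (t := t) i hv'.2.le
    have h5 := bc_mono (s := s) (t := t) i (le_max_left t (u + 1))
    refine Or.inl (Or.inr (Or.inr ?_))
    have h3 := off_spec t u
    have h4 := off_spec t v
    simp only [ap_off ht, true_and]
    omega
  · have h1 : F.card + bc s t i (t + a) = a + bc s t i t := count_not t a
    have h2 := gc_arm (s := s) ht i a
    rw [List.length_map, length_sort]
    omega
  · intro z hz
    obtain ⟨q, hq, rfl⟩ := List.mem_map.1 hz
    obtain ⟨h1, h3⟩ := (hmem q).1 hq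
    have h4 := off_spec t q
    exact ⟨rfl, by simp only; omega, by simp only; omega, h3⟩

/-- the two places where a living arm is entered -/
theorem arm_ends (ht : 2 ≤ t) {a i : ℕ} (hal : bc s t i (t + a) < t) :
    ∃ x y, x ≤ y ∧ y ≤ t ∧ ¬ s (i, x) ∧ ¬ s (i, y) ∧
      x + gc s i (t + 2) ≤ gc s i x + gc s i (t + 2 + a) + 1 ∧
      t + gc s i (y + 1) ≤ y + gc s i (t + 2) + 1 ∧
      ∀ w, w = x ∨ w = y → ∃ l : List (ℕ × ℕ), ((i, w) :: l).IsChain (Cat t).Adj ∧ l.Nodup ∧
        l.length + gc s i (t + 2 + a) = a + gc s i (t + 2) ∧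
        ∀ z ∈ l, z.1 = i ∧ t + 2 ≤ z.2 ∧ z.2 < t + 2 + a ∧ ¬ s z := by
  obtain ⟨M, hM⟩ := Nat.exists_eq_add_of_le (bc_mono (s := s) (t := t) i (Nat.le_add_right t a))
  have hne : ((Ico M t).filter fun p => ¬ s (i, off t p)).Nonempty := by
    by_contra hn
    rw [not_nonempty_iff_eq_empty, filter_eq_empty_iff] at hn
    have h1 : bc s t i t + M = bc s t i M + t :=
      count_all' (by omega) fun r h1 h2 => not_not.1 (hn (mem_Ico.2 ⟨h1, h2⟩))
    omega
  obtain ⟨p, hp, hmin⟩ := exists_min_image _ id hne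
  obtain ⟨q, hq, hmax⟩ := exists_max_image _ id hne
  simp only [mem_filter, mem_Ico, id] at hp hmin hq hmax
  have hpq := hmin q hq
  have h1 := off_spec t p
  have h2 := off_spec t q
  have h3 : bc s t i p + M = bc s t i M + p := count_all' hp.1.1 fun r h1 h2 => by
    by_contra hn
    have := hmin r ⟨⟨h1, by omega⟩, hn⟩
    omega
  have h4 : gc s i (t + 1) + (q + 2) = gc s i (q + 2) + (t + 1) :=
    count_all' (by omega) fun r h1 h2 => by
      by_contra hn
      have h3 : off t (r - 1) = r := by have := off_spec t (r - 1); omega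
      have := hmax (r - 1) ⟨by omega, by rwa [h3]⟩
      omega
  have h5 := bc_le_gc (s := s) (t := t) i p
  have h6 := gc_arm (s := s) ht i a
  have h7 := gc_mono (s := s) i (by omega : off t q + 1 ≤ q + 2)
  have h8 := gc_mono (s := s) i (by omega : t + 1 ≤ t + 2)
  refine ⟨off t p, off t q, by omega, by omega, hp.2, hq.2, by omega, by omega, ?_⟩
  rintro w (rfl | rfl)
  · exact arm_list ht hal hp.1.2 (by omega)
  · exact arm_list ht hal hq.1.2 (by omega)

/-- no `t` consecutive deleted vertices between two positions of the spine -/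
def NoWin (s : ℕ × ℕ → Prop) (t P Q : ℕ) : Prop :=
  ∀ p, P ≤ p → p + t < Q → ¬ ∀ r, p < r → r ≤ p + t → s (sg t r)

/-- arm, spine, arm -/
theorem long_list {a i j x y : ℕ} (hij : i < j) (hj : j < N) (hx : x ≤ t) (hy : y ≤ t)
    (hsx : ¬ s (i, x)) (hsy : ¬ s (j, y)) (l₁ l₂ : List (ℕ × ℕ))
    (c₁ : ((i, x) :: l₁).IsChain (Cat t).Adj) (c₂ : ((j, y) :: l₂).IsChain (Cat t).Adj)
    (n₁ : l₁.Nodup) (n₂ : l₂.Nodup)
    (m₁ : ∀ z ∈ l₁, z.1 = i ∧ t + 2 ≤ z.2 ∧ z.2 < t + 2 + a ∧ ¬ s z)
    (m₂ : ∀ z ∈ l₂, z.1 = j ∧ t + 2 ≤ z.2 ∧ z.2 < t + 2 + a ∧ ¬ s z)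
    (h : NoWin s t (i * (t + 2) + x) (j * (t + 2) + y)) :
    ∃ l : List (ℕ × ℕ), l.Nodup ∧ l.IsChain (Cat t).Adj ∧
      l.length + Gc s t (j * (t + 2) + y) + (i * (t + 2) + x) =
        l₁.length + l₂.length + 1 + (j * (t + 2) + y) + Gc s t (i * (t + 2) + x) ∧
      ∀ z ∈ l, z.1 < N ∧ z.2 < t + 2 + a ∧ ¬ s z := by
  have e1 := sg_eq (t := t) i (by omega : x < t + 2)
  have e2 := sg_eq (t := t) j (by omega : y < t + 2)
  have hm : (i + 1) * (t + 2) ≤ j * (t + 2) := Nat.mul_le_mul_right _ hij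
  have hm' : (j + 1) * (t + 2) ≤ N * (t + 2) := Nat.mul_le_mul_right _ hj
  rw [add_mul] at hm hm'
  set P := i * (t + 2) + x with hP
  set Q := j * (t + 2) + y with hQ
  obtain ⟨n, hn⟩ : ∃ n, Q = P + 1 + n := ⟨Q - P - 1, by omega⟩
  set F := (Ico (P + 1) Q).filter fun r => ¬ s (sg t r) with hF
  have hmem : ∀ q, q ∈ F.sort (· ≤ ·) ↔ (P + 1 ≤ q ∧ q < Q) ∧ ¬ s (sg t q) := fun q => by
    rw [mem_sort, hF, mem_filter, mem_Ico]
  have hall : ∀ q, q ∈ P :: (F.sort (· ≤ ·) ++ [Q]) ↔ (P ≤ q ∧ q ≤ Q) ∧ ¬ s (sg t q) := fun q => by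
    rw [List.mem_cons, List.mem_append, List.mem_singleton, hmem]
    constructor
    · rintro (rfl | h1 | rfl)
      · exact ⟨by omega, by rwa [e1]⟩
      · exact ⟨by omega, h1.2⟩
      · exact ⟨by omega, by rwa [e2]⟩
    · intro h1
      by_cases h2 : q = P
      · exact Or.inl h2
      · by_cases h3 : q = Q
        · exact Or.inr (Or.inr h3)
        · exact Or.inr (Or.inl ⟨by omega, h1.2⟩)
  have hpw : (P :: (F.sort (· ≤ ·) ++ [Q])).Pairwise (· < ·) := by
    refine List.pairwise_cons.2 ⟨fun q hq => ?_, List.pairwise_append.2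
      ⟨(sortedLT_sort F).pairwise, by simp, fun q hq r hr => ?_⟩⟩
    · rcases List.mem_append.1 hq with h1 | h1
      · have := (hmem q).1 h1; omega
      · have := List.mem_singleton.1 h1; omega
    · have := (hmem q).1 hq
      have := List.mem_singleton.1 hr
      omega
  have hch : ((P :: (F.sort (· ≤ ·) ++ [Q])).map (sg t)).IsChain (Cat t).Adj := by
    rw [List.isChain_map]
    refine chain_of_sorted _ hpw fun u hu v hv huv hr => sg_adj huv ?_
    have h1 := (hall u).1 hu
    have h2 := (hall v).1 hv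
    by_contra hn'
    refine h u h1.1.1 (by omega) fun r h3 h4 => ?_
    by_contra h5
    exact hr r ((hall r).2 ⟨by omega, h5⟩) (by omega)
  have hinj : Function.Injective (sg t) := fun u v huv => by
    rw [← Nat.div_add_mod' u (t + 2), ← Nat.div_add_mod' v (t + 2)]
    exact congrArg (fun z : ℕ × ℕ => z.1 * (t + 2) + z.2) huv
  have hbox : ∀ z ∈ (P :: (F.sort (· ≤ ·) ++ [Q])).map (sg t), z.1 < N ∧ z.2 < t + 2 ∧ ¬ s z := by
    intro z hz
    obtain ⟨q, hq, rfl⟩ := List.mem_map.1 hz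
    have h1 := (hall q).1 hq
    exact ⟨(Nat.div_lt_iff_lt_mul (by omega)).2 (by omega), Nat.mod_lt _ (by omega), h1.2⟩
  refine ⟨l₁.reverse ++ ((P :: (F.sort (· ≤ ·) ++ [Q])).map (sg t) ++ l₂), ?_, ?_, ?_, ?_⟩
  · rw [List.nodup_append, List.nodup_append, List.nodup_reverse]
    refine ⟨n₁, ⟨List.Nodup.map hinj (hpw.imp fun h => h.ne), n₂,
      fun z hz z' hz' hzz => ?_⟩, fun z hz z' hz' hzz => ?_⟩
    · have h1 := hbox z hz
      have h2 := m₂ z' hz'
      rw [hzz] at h1
      omega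
    · have h1 := m₁ z (List.mem_reverse.1 hz)
      rw [hzz] at h1
      rcases List.mem_append.1 hz' with h2 | h2
      · have := hbox z' h2; omega
      · have := m₂ z' h2; omega
  · rw [List.map_cons, List.map_append, List.map_singleton, e1, e2] at hch ⊢
    rw [List.cons_append, List.isChain_split, ← List.reverse_cons, List.isChain_reverse,
      List.append_assoc, List.singleton_append, ← List.cons_append, List.isChain_split]
    exact ⟨c₁.imp fun _ _ h => h.symm, hch, c₂⟩
  · have h1 : F.card + Gc s t (P + 1 + n) = n + Gc s t (P + 1) := by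
      rw [hF, hn]; exact count_not (P + 1) n
    have h2 : Gc s t (P + 1) = Gc s t P := by
      unfold Gc; rw [Nat.count_succ, e1, if_neg hsx, add_zero]
    rw [← hn] at h1
    simp only [List.length_append, List.length_reverse, List.length_map, List.length_cons,
      length_sort, List.length_nil]
    omega
  · intro z hz
    rw [List.mem_append, List.mem_append, List.mem_reverse] at hz
    rcases hz with hz | hz | hz
    · have := m₁ z hz; exact ⟨by omega, by omega, this.2.2.2⟩
    · have := hbox z hz; exact ⟨by omega, by omega, this.2.2⟩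
    · have := m₂ z hz; exact ⟨by omega, by omega, this.2.2.2⟩

/-- the counting -/
theorem scan (ht : 2 ≤ t) (al : ℕ → Prop) (lk : ℕ → ℕ → Prop) (c L R : ℕ → ℕ)
    (h0 : ∀ l < N, al l → L l + R l ≤ c l) (h1 : ∀ l < N, ¬ al l → t ≤ c l)
    (hr : ∀ l < N, al l → lk l l)
    (htr : ∀ i j l, al j → lk i j → lk j l → lk i l)
    (hl : ∀ i e, al i → al (i + 1 + e) → lk i (i + 1 + e) →
      t + 3 + e * (t + 2) + L i + R (i + 1 + e) ≤
        2 * (c i + ∑ l ∈ range e, c (i + 1 + l) + c (i + 1 + e)))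
    (h2 : ∀ i, i + 1 ≤ N → al i → al (i + 1) → ¬ lk i (i + 1) → t ≤ R i + L (i + 1))
    (h3 : ∀ i j, i < j → j ≤ N → al i → al j → ¬ lk i j →
      (∀ l, i < l → l < j → ¬ al l ∧ c l ≤ t) → 1 ≤ R i + L j) (j : ℕ) :
    j ≤ N → al j → (∀ i < j, al i → ¬ lk i j) →
      (t + 1) * j ≤ 2 * ∑ l ∈ range j, c l + L j + min (L j) 1 := by
  classical
  induction j using Nat.strong_induction_on with
  | _ j ih =>
    intro hj haj hfst
    rcases ((range j).filter al).eq_empty_or_nonempty with he | hne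
    · rw [filter_eq_empty_iff] at he
      have h4 := card_nsmul_le_sum (range j) c t fun l hl =>
        h1 l (by have := mem_range.1 hl; omega) (he hl)
      rw [card_range, smul_eq_mul] at h4
      nlinarith [Nat.zero_le (min (L j) 1)]
    obtain ⟨l, hl', hmax⟩ := exists_max_image _ id hne
    simp only [mem_filter, mem_range, id] at hl' hmax
    obtain ⟨i, hi, hmin⟩ := exists_min_image ((range (l + 1)).filter fun i => al i ∧ lk i l) id
      ⟨l, mem_filter.2 ⟨mem_range.2 (by omega), hl'.2, hr l (by omega) hl'.2⟩⟩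
    simp only [mem_filter, mem_range, id] at hi hmin
    have h4 := ih i (by omega) (by omega) hi.2.1 fun u hu hau hlk => by
      have := hmin u ⟨by omega, hau, htr u i l hi.2.1 hlk hi.2.2⟩
      omega
    have hnl := hfst l hl'.1 hl'.2
    obtain ⟨d, rfl⟩ : ∃ d, j = l + 1 + d := ⟨j - l - 1, by omega⟩
    have hd : ∀ u, l < u → u < l + 1 + d → ¬ al u := fun u h6 h7 h8 => by
      have := hmax u ⟨h7, h8⟩; omega
    have h6 : ∀ u ∈ range d, t ≤ c (l + 1 + u) := fun u hu => by
      have := mem_range.1 hu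
      exact h1 _ (by omega) (hd _ (by omega) (by omega))
    have h9 := card_nsmul_le_sum (range d) _ t h6
    rw [card_range, smul_eq_mul] at h9
    have h7 : d * t + 1 ≤ ∑ u ∈ range d, c (l + 1 + u) + (R l + L (l + 1 + d)) := by
      by_cases h8 : ∃ u ∈ range d, t < c (l + 1 + u)
      · have h9 := sum_lt_sum h6 h8
        rw [sum_const, card_range, smul_eq_mul] at h9
        omega
      · have h10 := h3 l (l + 1 + d) (by omega) hj hl'.2 haj hnl fun u h11 h12 =>
          ⟨hd u h11 h12, by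
            by_contra hn
            exact h8 ⟨u - l - 1, mem_range.2 (by omega), by
              rw [show l + 1 + (u - l - 1) = u by omega]; omega⟩⟩
        omega
    have h8 : d = 0 → t ≤ R l + L (l + 1 + d) := by
      rintro rfl
      exact h2 l hj hl'.2 haj hnl
    have h10 : d = 0 ∨ t + d ≤ d * t + 1 := by
      rcases d with _ | d
      · exact Or.inl rfl
      · obtain ⟨u, rfl⟩ : ∃ u, t = u + 1 := ⟨t - 1, by omega⟩
        exact Or.inr (by nlinarith [Nat.zero_le (u * d)])
    have h11 : d = 0 → d * t = 0 := by rintro rfl; simp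
    rw [sum_range_add, sum_range_succ]
    rcases (Nat.le_of_lt_succ hi.1).eq_or_lt with rfl | hil
    · have h5 := h0 i (by omega) hi.2.1
      have h12 : (t + 1) * (i + 1 + d) = (t + 1) * i + (t + 1) + (d * t + d) := by ring
      omega
    · obtain ⟨e, rfl⟩ : ∃ e, l = i + 1 + e := ⟨l - i - 1, by omega⟩
      have h5 := hl i e hi.2.1 hl'.2 hi.2.2
      have h12 : (t + 1) * (i + 1 + e + 1 + d) + e =
        (t + 1) * i + 2 * (t + 1) + e * (t + 2) + (d * t + d) := by ring
      rw [sum_range_add, sum_range_succ]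
      omega

end Pool.Agent.Lib.MP_708c97_co
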