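import Mathlib

set_option autoImplicit false

namespace Pool.Agent.Lib.MP_708c97_co

/-- A graph is chordal if every cycle of length at least `4` has a chord: an edge of the graph
joining two vertices of the cycle that is not an edge of the cycle. -/
def IsChordal {V : Type} (G : SimpleGraph V) : Prop :=
  ∀ (v : V) (c : G.Walk v v), c.IsCycle → 4 ≤ c.length →
    ∃ a ∈ c.support, ∃ b ∈ c.support, G.Adj a b ∧ s(a, b) ∉ c.edges

/-- `S` is a `k`-path vertex cover: every path on `k` vertices contains a vertex of `S`. -/
def IsPathCover {V : Type} (G : SimpleGraph V) (k : ℕ) (S : Finset V) : Prop :=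
  ∀ (u v : V) (p : G.Walk u v), p.IsPath → p.length + 1 = k → ∃ x ∈ p.support, x ∈ S

/-- The `k`-path vertex cover number. -/
noncomputable def psi {V : Type} (G : SimpleGraph V) (k : ℕ) : ℕ :=
  sInf {m : ℕ | ∃ S : Finset V, IsPathCover G k S ∧ S.card = m}

end Pool.Agent.Lib.MP_708c97_co
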