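import Pool.Agent.Lib.MP_708c97_co.Defs

set_option autoImplicit false

namespace Pool.Agent.Lib.MP_708c97_co

open SimpleGraph

/-- A graph with a perfect elimination ordering is chordal. -/
theorem isChordal_of_peo {n : ℕ} (G : SimpleGraph (Fin n))
    (h : ∀ m a b : Fin n, a < m → b < m → a ≠ b → G.Adj m a → G.Adj m b → G.Adj a b) :
    IsChordal G := by
  classical
  intro v c hc hl
  obtain ⟨m, hm, hmax⟩ := Finset.exists_max_image c.support.toFinset id
    ⟨v, by simp⟩
  rw [List.mem_toFinset] at hm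
  have hmax' : ∀ x ∈ (c.rotate m hm).support, x ≤ m := by
    intro x hx
    rw [Walk.mem_support_rotate_iff] at hx
    exact hmax x (List.mem_toFinset.2 hx)
  have hc' : (c.rotate m hm).IsCycle := hc.rotate hm
  have hl' : 4 ≤ (c.rotate m hm).length := by simpa using hl
  suffices H : ∃ a ∈ (c.rotate m hm).support, ∃ b ∈ (c.rotate m hm).support,
      G.Adj a b ∧ s(a, b) ∉ (c.rotate m hm).edges by
    obtain ⟨a, ha, b, hb, hab, hne⟩ := H
    rw [Walk.mem_support_rotate_iff] at ha hb
    exact ⟨a, ha, b, hb, hab, fun h => hne ((c.rotate_edges m hm).mem_iff.2 h)⟩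
  generalize c.rotate m hm = d at hmax' hc' hl'
  cases d with
  | nil => simp at hl'
  | cons hma p =>
    rename_i a
    rw [Walk.cons_isCycle_iff] at hc'
    obtain ⟨hp, -⟩ := hc'
    have hpl : 3 ≤ p.length := by simp at hl'; omega
    have hex : ∃ (b : Fin n) (q : G.Walk a b) (hbm : G.Adj b m), p = q.concat hbm := by
      cases p with
      | nil => simp at hpl
      | cons h' p' => exact Walk.exists_cons_eq_concat h' p'
    obtain ⟨b, q, hbm, rfl⟩ := hex
    rw [Walk.concat_isPath_iff] at hp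
    obtain ⟨hq, hmq⟩ := hp
    have hql : 2 ≤ q.length := by rw [Walk.length_concat] at hpl; omega
    have ha : a ∈ (Walk.cons hma (q.concat hbm)).support := by simp
    have hb : b ∈ (Walk.cons hma (q.concat hbm)).support := by simp
    have ham : a < m := lt_of_le_of_ne (hmax' a ha) hma.ne'
    have hbm' : b < m := lt_of_le_of_ne (hmax' b hb) hbm.ne
    have hab : a ≠ b := by
      rintro rfl
      rw [Walk.isPath_iff_eq_nil] at hq
      subst hq
      simp at hql
    refine ⟨a, ha, b, hb, h m a b ham hbm' hab hma hbm.symm, ?_⟩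
    rw [Walk.edges_cons, Walk.edges_concat, List.concat_eq_append, List.mem_cons,
      List.mem_append, List.mem_singleton]
    rintro (h1 | h1 | h1)
    · rw [Sym2.eq_iff] at h1
      rcases h1 with ⟨h2, -⟩ | ⟨-, h2⟩
      · exact ham.ne h2
      · exact hbm'.ne h2
    · have := hq.length_eq_one_of_mem_edges h1
      omega
    · rw [Sym2.eq_iff] at h1
      rcases h1 with ⟨h2, -⟩ | ⟨h2, -⟩
      · exact hab h2
      · exact ham.ne h2

theorem exists_walk_of_chain {V : Type} (G : SimpleGraph V) :
    ∀ (l : List V) (a : V), (a :: l).IsChain G.Adj →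
      ∃ (b : V) (p : G.Walk a b), p.support = a :: l := by
  intro l
  induction l with
  | nil => intro a _; exact ⟨a, Walk.nil, rfl⟩
  | cons x l ih =>
    intro a h
    rw [List.isChain_cons_cons] at h
    obtain ⟨b, p, hp⟩ := ih x h.2
    exact ⟨b, Walk.cons h.1 p, by simp [hp]⟩

/-- `noHit d ps` certifies that no set of at most `d` vertices meets every list in `ps`. -/
def noHit {n : ℕ} : ℕ → List (List (Fin n)) → Bool
  | _, [] => false
  | 0, _ :: _ => true
  | d + 1, p :: ps => p.all (fun v => noHit d (ps.filter (fun q => !q.contains v)))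

theorem noHit_spec {n : ℕ} : ∀ (d : ℕ) (ps : List (List (Fin n))), noHit d ps = true →
    ∀ S : Finset (Fin n), S.card ≤ d → ∃ p ∈ ps, ∀ x ∈ p, x ∉ S := by
  intro d
  induction d with
  | zero =>
    intro ps h S hS
    cases ps with
    | nil => simp [noHit] at h
    | cons p ps =>
      have : S = ∅ := Finset.card_eq_zero.1 (by omega)
      exact ⟨p, by simp, by simp [this]⟩
  | succ d ih =>
    intro ps h S hS
    cases ps with
    | nil => simp [noHit] at h
    | cons p ps =>
      by_cases hp : ∀ x ∈ p, x ∉ S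
      · exact ⟨p, by simp, hp⟩
      · push Not at hp
        obtain ⟨v, hv, hvS⟩ := hp
        simp only [noHit, List.all_eq_true] at h
        obtain ⟨q, hq, hq2⟩ := ih _ (h v hv) (S.erase v)
          (by rw [Finset.card_erase_of_mem hvS]; omega)
        rw [List.mem_filter] at hq
        refine ⟨q, List.mem_cons_of_mem _ hq.1, fun x hx hxS => hq2 x hx ?_⟩
        rw [Finset.mem_erase]
        refine ⟨?_, hxS⟩
        rintro rfl
        have := hq.2
        simp [hx] at this

/-- edge list of the example -/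
def edgeList : List (Fin 17 × Fin 17) :=
  [(0, 1), (0, 2), (1, 2), (1, 3), (2, 3), (2, 4), (3, 4), (0, 5), (1, 5), (1, 6), (5, 6), (5, 7),
   (6, 7), (0, 8), (5, 8), (5, 9), (8, 9), (8, 10), (9, 10), (4, 11), (3, 11), (3, 12), (11, 12),
   (11, 13), (12, 13), (4, 14), (11, 14), (11, 15), (14, 15), (14, 16), (15, 16)]

def adjB (a b : Fin 17) : Bool := edgeList.contains (a, b) || edgeList.contains (b, a)

/-- The example: a 2-tree on 17 vertices. -/
def G17 : SimpleGraph (Fin 17) where
  Adj a b := adjB a b = true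
  symm := ⟨by intro a b h; simpa [adjB, or_comm] using h⟩
  loopless := ⟨by decide⟩

instance : DecidableRel G17.Adj := fun a b => inferInstanceAs (Decidable (adjB a b = true))

theorem G17_chordal : IsChordal G17 := isChordal_of_peo G17 (by decide +kernel)

def col17 : Fin 17 → Fin 3 := ![0, 1, 2, 0, 1, 2, 0, 1, 1, 0, 2, 2, 1, 0, 0, 1, 2]

theorem G17_cliqueNum : G17.cliqueNum = 3 := by
  apply le_antisymm
  · obtain ⟨s, hs⟩ := G17.exists_isNClique_cliqueNum
    have hcol : G17.Colorable 3 := ⟨Coloring.mk col17 (by decide +kernel)⟩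
    rw [← hs.card_eq]
    exact hs.isClique.card_le_of_colorable hcol
  · have h : G17.IsClique (({0, 1, 2} : Finset (Fin 17)) : Set (Fin 17)) := by
      intro a ha b hb hab
      simp only [Finset.coe_insert, Finset.coe_singleton, Set.mem_insert_iff,
        Set.mem_singleton_iff] at ha hb
      rcases ha with rfl | rfl | rfl <;> rcases hb with rfl | rfl | rfl <;>
        first | exact absurd rfl hab | decide
    exact IsClique.card_le_cliqueNum (tc := h)

def pathList : List (List (Fin 17)) :=
  [[0, 8, 9, 5, 1, 2], [3, 4, 11, 14, 16, 15], [7, 6, 1, 3, 12, 13], [0, 2, 4, 11, 12, 13],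
   [6, 7, 5, 8, 9, 10], [6, 1, 2, 4, 14, 16], [10, 8, 0, 1, 3, 11], [12, 13, 11, 14, 16, 15],
   [3, 2, 0, 5, 9, 10], [13, 12, 3, 4, 14, 15], [6, 1, 2, 3, 11, 15], [2, 0, 8, 5, 6, 7],
   [0, 1, 6, 7, 5, 9], [10, 8, 5, 1, 3, 12], [4, 2, 0, 8, 9, 10], [6, 1, 0, 8, 9, 10],
   [7, 5, 1, 2, 4, 11], [12, 13, 11, 4, 14, 16], [3, 12, 13, 11, 15, 16], [7, 5, 1, 0, 8, 10],
   [3, 2, 0, 8, 9, 10], [2, 1, 5, 8, 9, 10], [0, 2, 4, 14, 16, 15], [1, 2, 4, 11, 12, 13]]

theorem pathList_ok : ∀ p ∈ pathList, p.length = 6 ∧ p.Nodup ∧ p.IsChain G17.Adj := by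
  decide +kernel

theorem pathList_noHit : noHit 4 pathList = true := by decide +kernel

theorem G17_psi : 5 ≤ psi G17 6 := by
  unfold psi
  apply le_csInf
  · exact ⟨_, Finset.univ, fun u _ p _ _ => ⟨u, p.start_mem_support, Finset.mem_univ _⟩, rfl⟩
  · rintro m ⟨S, hS, rfl⟩
    by_contra hlt
    obtain ⟨p, hp, hpS⟩ := noHit_spec 4 pathList pathList_noHit S (by omega)
    obtain ⟨h1, h2, h3⟩ := pathList_ok p hp
    cases p with
    | nil => simp at h1
    | cons a l =>
      obtain ⟨b, w, hw⟩ := exists_walk_of_chain G17 l a h3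
      obtain ⟨x, hx, hxS⟩ := hS a b w (by rw [Walk.isPath_def, hw]; exact h2)
        (by rw [← Walk.length_support, hw]; exact h1)
      rw [hw] at hx
      exact hpS x hx hxS

end Pool.Agent.Lib.MP_708c97_co
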