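import Pool.Agent.Lib.MP_708c97_co.Cat

/-!
The finite caterpillars: chordal, clique number `t + 1`, and a large path cover number.
-/

set_option autoImplicit false

namespace Pool.Agent.Lib.MP_708c97_co

open SimpleGraph Finset

variable {t N : ℕ} {s : ℕ × ℕ → Prop}

/-- a dead arm is paid for by base and arm alone -/
theorem dead_count [DecidablePred s] (ht : 2 ≤ t) {a l : ℕ} (hl : ¬ bc s t l (t + a) < t) :
    t ≤ gc s l (t + 2 + a) ∧ (gc s l (t + 2 + a) ≤ t → ¬ s (l, 1) ∧ ¬ s (l, t + 1)) := by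
  have hdead : ∀ r, (r = 1 ∨ r = t + 1) →
      t ≤ (((range (t + 2 + a)).filter fun r => s (l, r)).erase r).card := fun r hr => by
    rw [bc, Nat.count_eq_card_filter_range] at hl
    refine (not_lt.1 hl).trans (card_le_card_of_injOn (off t) (fun p hp => ?_) fun p _ q _ h => ?_)
    · have h1 := off_spec t p
      simp only [coe_filter, mem_range, Set.mem_ofPred_eq, coe_erase, Set.mem_sdiff,
        Set.mem_singleton_iff] at hp ⊢
      exact ⟨⟨by omega, hp.2⟩, by omega⟩
    · rw [← ap_off ht p, h, ap_off ht]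
  rw [gc, Nat.count_eq_card_filter_range]
  refine ⟨(hdead 1 (Or.inl rfl)).trans card_erase_le, fun h => ?_⟩
  have h12 : ∀ r < t + 2 + a, (r = 1 ∨ r = t + 1) → ¬ s (l, r) := fun r hr hr' hsr => by
    have h13 := hdead r hr'
    rw [card_erase_of_mem (mem_filter.2 ⟨mem_range.2 hr, hsr⟩)] at h13
    omega
  exact ⟨h12 1 (by omega) (Or.inl rfl), h12 (t + 1) (by omega) (Or.inr rfl)⟩

/-- a window between two blocks lies between their inner entry points -/
theorem win_between {i j x y x' y' : ℕ} (hy : y ≤ t) (hy' : y' ≤ t) (hx' : x' ≤ y')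
    (hsy : ¬ s (i, y)) (hsx : ¬ s (j, x'))
    (h : ¬ NoWin s t (i * (t + 2) + x) (j * (t + 2) + y')) :
    ∃ p, i * (t + 2) + y ≤ p ∧ p + t < j * (t + 2) + x' ∧
      ∀ r, p < r → r ≤ p + t → s (sg t r) := by
  unfold NoWin at h
  push Not at h
  obtain ⟨p, h1, h2, h3⟩ := h
  refine ⟨p, ?_, ?_, h3⟩
  · by_contra hn
    have := h3 (i * (t + 2) + y) (by omega) (by omega)
    rw [sg_eq i (by omega)] at this
    exact hsy this
  · by_contra hn
    have := h3 (j * (t + 2) + x') (by omega) (by omega)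
    rw [sg_eq j (by omega)] at this
    exact hsx this

theorem count_lower [DecidablePred s] (ht : 2 ≤ t) (a k : ℕ) (hk : k + 1 ≤ 2 * a + t)
    (hs : ∀ l : List (ℕ × ℕ), l.Nodup → l.IsChain (Cat t).Adj → k ≤ l.length →
      ¬ ∀ z ∈ l, z.1 < N ∧ z.2 < t + 2 + a ∧ ¬ s z) :
    (t + 1) * N ≤ 2 * ∑ l ∈ range N, gc s l (t + 2 + a) + (t + 1) := by
  classical
  let al : ℕ → Prop := fun i => bc s t i (t + a) < t
  choose! x y hxy hy hsx hsy hL hR hl using fun i (h : al i) => arm_ends (s := s) ht h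
  have hc : ∀ l, gc s l (t + 2) ≤ gc s l (t + 2 + a) := fun l => gc_mono l (by omega)
  have hG : ∀ l, ∀ z ≤ t + 2, Gc s t (l * (t + 2) + z) =
      ∑ u ∈ range l, gc s u (t + 2) + gc s l z := fun l z hz => by rw [Gc_add l z hz, Gc_mul]
  have key := scan (N := N) ht (fun i => i = N ∨ al i)
    (fun i j => j < N ∧ NoWin s t (i * (t + 2) + x i) (j * (t + 2) + y j))
    (fun l => gc s l (t + 2 + a)) (fun l => if l = N then t else gc s l (x l))
    (fun l => gc s l (t + 2) - gc s l (y l + 1))
    (fun l hl hal => by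
      have h1 := hal.resolve_left hl.ne
      have h2 := gc_mono (s := s) l (by have := hxy l h1; omega : x l ≤ y l + 1)
      have h3 := gc_mono (s := s) l (by have := hy l h1; omega : y l + 1 ≤ t + 2)
      have h4 := hc l
      simp only [hl.ne, if_false]
      omega)
    (fun l _ hal => (dead_count ht fun h => hal (Or.inr h)).1)
    (fun l hl hal => ⟨hl, fun p h1 h2 => by
      have := hy l (hal.resolve_left hl.ne)
      omega⟩)
    (fun i j l hj h1 h2 => ⟨h2.1, fun p h3 h4 h5 => by
      have h6 := hj.resolve_left h1.1.ne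
      have h7 := hxy j h6
      have h8 := hy j h6
      by_cases h9 : j * (t + 2) + x j ≤ p
      · exact h2.2 p h9 h4 h5
      by_cases h10 : p + t < j * (t + 2) + x j
      · exact h1.2 p h3 (by omega) h5
      have := h5 (j * (t + 2) + x j) (by omega) (by omega)
      rw [sg_eq j (by omega)] at this
      exact hsx j h6 this⟩)
    (fun i e hi hj h => by
      have hN := h.1
      have h1 : al i := hi.resolve_left (by omega)
      have h2 : al (i + 1 + e) := hj.resolve_left (by omega)
      obtain ⟨l₁, c₁, n₁, e₁, m₁⟩ := hl i h1 _ (Or.inl rfl)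
      obtain ⟨l₂, c₂, n₂, e₂, m₂⟩ := hl _ h2 _ (Or.inr rfl)
      have h3 := hxy i h1
      have h4 := hy i h1
      have h5 := hy _ h2
      obtain ⟨l, h6, h7, h8, h9⟩ := long_list (by omega) hN (by omega) h5 (hsx i h1) (hsy _ h2)
        l₁ l₂ c₁ c₂ n₁ n₂ m₁ m₂ h.2
      have h10 : l.length < k := not_le.1 fun h => hs l h6 h7 h h9
      rw [hG _ _ (by omega), hG _ _ (by omega), sum_range_add, sum_range_succ] at h8
      have h11 : ∑ u ∈ range e, gc s (i + 1 + u) (t + 2) ≤
        ∑ u ∈ range e, gc s (i + 1 + u) (t + 2 + a) := sum_le_sum fun u _ => hc _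
      have h12 : (i + 1 + e) * (t + 2) = i * (t + 2) + e * (t + 2) + (t + 2) := by ring
      have h13 := hL i h1
      have h14 := hR _ h2
      have h15 := hc i
      have h16 := hc (i + 1 + e)
      have h17 := gc_mono (s := s) (i + 1 + e) (Nat.le_succ (y (i + 1 + e)))
      have h18 := gc_mono (s := s) (i + 1 + e) (by omega : y (i + 1 + e) + 1 ≤ t + 2)
      have h19 := gc_mono (s := s) i (by omega : x i ≤ t + 2)
      simp only [show i ≠ N by omega, if_false, Nat.succ_eq_add_one] at h17 ⊢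
      omega)
    (fun i hi h1 h2 h => by
      by_cases h3 : i + 1 = N
      · simp [h3]
      have h4 : al i := h1.resolve_left (by omega)
      have h5 : al (i + 1) := h2.resolve_left h3
      have h6 := hy i h4
      have h7 := hy _ h5
      have h8 := hxy _ h5
      obtain ⟨p, h9, h10, h11⟩ := win_between h6 h7 h8 (hsy i h4) (hsx _ h5)
        fun h' => h ⟨by omega, h'⟩
      have h12 : Gc s t (p + 1 + t) = Gc s t (p + 1) + t :=
        count_all t fun r h1 h2 => h11 r (by omega) (by omega)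
      have h13 : Gc s t (i * (t + 2) + (y i + 1)) ≤ Gc s t (p + 1) :=
        Nat.count_monotone _ (by omega)
      have h14 : Gc s t (p + 1 + t) ≤ Gc s t ((i + 1) * (t + 2) + x (i + 1)) :=
        Nat.count_monotone _ (by omega)
      rw [hG _ _ (by omega)] at h13 h14
      rw [sum_range_succ] at h14
      simp only [h3, if_false]
      omega)
    (fun i j hij hj h1 h2 h h' => by
      by_cases h3 : j = N
      · simp only [h3, if_true]; omega
      have h4 : al i := h1.resolve_left (by omega)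
      have h5 : al j := h2.resolve_left h3
      have h6 := hy i h4
      have h7 := hy _ h5
      have h8 := hxy _ h5
      obtain ⟨p, h9, h10, h11⟩ := win_between h6 h7 h8 (hsy i h4) (hsx _ h5)
        fun h' => h ⟨by omega, h'⟩
      obtain ⟨u, r, hr, hp⟩ := sg_ex t (p + 1)
      have h12 : s (u, r) := by rw [← sg_eq u hr, ← hp]; exact h11 _ (by omega) (by omega)
      simp only [h3, if_false]
      have hiu : i ≤ u := by
        by_contra hn
        have := Nat.mul_le_mul_right (t + 2) (by omega : u + 1 ≤ i)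
        rw [add_mul] at this
        omega
      have huj : u ≤ j := by
        by_contra hn
        have := Nat.mul_le_mul_right (t + 2) (by omega : j + 1 ≤ u)
        rw [add_mul] at this
        omega
      rcases hiu.eq_or_lt with rfl | hiu
      · have h13 : gc s i r < gc s i (t + 2) := Nat.count_strict_mono h12 hr
        have h14 := gc_mono (s := s) i (by omega : y i + 1 ≤ r)
        omega
      rcases huj.eq_or_lt with rfl | huj
      · have h13 : gc s u r < gc s u (x u) := Nat.count_strict_mono h12 (by omega)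
        omega
      obtain ⟨h13, h14⟩ := h' u hiu huj
      obtain ⟨h15, h16⟩ := (dead_count ht fun h => h13 (Or.inr h)).2 h14
      exfalso
      by_cases h17 : r ≤ 1
      · have := h11 (u * (t + 2) + 1) (by omega) (by omega)
        rw [sg_eq u (by omega)] at this
        exact h15 this
      · have := h11 (u * (t + 2) + (t + 1)) (by omega) (by omega)
        rw [sg_eq u (by omega)] at this
        exact h16 this)
    N le_rfl (Or.inl rfl) fun i _ _ h => lt_irrefl _ h.1
  simp only [if_true] at key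
  omega

/-- one block: a power of a path -/
theorem count_small [DecidablePred s] (ht : 2 ≤ t) (hN : 0 < N) (a k : ℕ) (hk : k ≤ a + 1)
    (hs : ∀ l : List (ℕ × ℕ), l.Nodup → l.IsChain (Cat t).Adj → k ≤ l.length →
      ¬ ∀ z ∈ l, z.1 < N ∧ z.2 < t + 2 + a ∧ ¬ s z) : t ≤ gc s 0 (t + 2 + a) := by
  refine (dead_count ht fun hal => ?_).1
  set F := (Ico 0 (0 + (t + a))).filter fun r => ¬ s (0, off t r) with hF
  have hmem : ∀ q, q ∈ F.sort (· ≤ ·) ↔ (0 ≤ q ∧ q < 0 + (t + a)) ∧ ¬ s (0, off t q) := fun q => by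
    rw [mem_sort, hF, mem_filter, mem_Ico]
  have hinj : Function.Injective fun u => (0, off t u) := fun u v huv => by
    rw [← ap_off ht u, (Prod.mk.inj huv).2, ap_off ht]
  refine hs ((F.sort (· ≤ ·)).map fun u => (0, off t u)) ((sort_nodup _ _).map hinj) ?_ ?_ ?_
  · rw [List.isChain_map]
    refine chain_of_sorted _ (sortedLT_sort F).pairwise fun u _ v hv huv hr => ?_
    have hv' := ((hmem v).1 hv).1
    have h1 : bc s t 0 v + (u + 1) = bc s t 0 (u + 1) + v :=
      count_all' (by omega) fun r h1 h2 => by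
        by_contra hn
        exact hr r ((hmem r).2 ⟨by omega, hn⟩) (by omega)
    have h2 := bc_mono (s := s) (t := t) 0 (by omega : v ≤ t + a)
    have h3 := off_spec t u
    have h4 := off_spec t v
    by_cases h5 : v < t
    · refine Or.inl (Or.inl ?_)
      simp only [true_and]
      omega
    · refine Or.inl (Or.inr (Or.inr ?_))
      simp only [ap_off ht, true_and]
      omega
  · have h1 : F.card + bc s t 0 (0 + (t + a)) = t + a + bc s t 0 0 := count_not 0 (t + a)
    rw [zero_add] at h1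
    rw [List.length_map, length_sort]
    omega
  · intro z hz
    obtain ⟨q, hq, rfl⟩ := List.mem_map.1 hz
    obtain ⟨h1, h3⟩ := (hmem q).1 hq
    have h4 := off_spec t q
    exact ⟨hN, by simp only; omega, h3⟩

/-- A graph with a perfect elimination ordering is chordal. -/
theorem isChordal_of_rank {V β : Type} [LinearOrder β] (G : SimpleGraph V) (f : V → β)
    (hf : Function.Injective f) [Fintype V]
    (h : ∀ m a b : V, f a < f m → f b < f m → a ≠ b → G.Adj m a → G.Adj m b → G.Adj a b) :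
    IsChordal G := by
  classical
  let _ : LinearOrder V := LinearOrder.lift' f hf
  let e : Fin (Fintype.card V) ≃o V := monoEquivOfFin V rfl
  have h1 := isChordal_of_peo (G.comap e) fun m a b ha hb hab h2 h3 =>
    h (e m) (e a) (e b) (e.lt_iff_lt.2 ha) (e.lt_iff_lt.2 hb) (e.injective.ne hab) h2 h3
  intro v c hc hl
  let φ : G →g G.comap e := ⟨e.symm, fun {a b} hab => by simpa using hab⟩
  obtain ⟨a, ha, b, hb, hab, hne⟩ := h1 _ (c.map φ)
    ((Walk.isCycle_map_iff_of_injective e.symm.injective).2 hc) (by simpa using hl)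
  rw [Walk.support_map, List.mem_map] at ha hb
  obtain ⟨a, ha, rfl⟩ := ha
  obtain ⟨b, hb, rfl⟩ := hb
  refine ⟨a, ha, b, hb, by simpa [φ] using hab, fun h2 => hne ?_⟩
  rw [Walk.edges_map, List.mem_map]
  exact ⟨s(a, b), h2, rfl⟩

/-- the finite caterpillar -/
def fcat (t N h : ℕ) : SimpleGraph (Fin N × Fin h) :=
  (Cat t).comap fun v => (v.1.val, v.2.val)

theorem lo_of_lt {h : ℕ} {m a : Fin N × Fin h} (h1 : toLex a < toLex m)
    (h2 : (fcat t N h).Adj m a) : Lo t (a.1.val, a.2.val) (m.1.val, m.2.val) := by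
  refine Or.resolve_left h2 fun h3 => ?_
  rw [Prod.Lex.toLex_lt_toLex, Fin.lt_def, Fin.lt_def, Fin.ext_iff] at h1
  simp only [Lo] at h3
  omega

theorem lo_lo {x y m : ℕ × ℕ} (h1 : Lo t x m) (h2 : Lo t y m)
    (h : x.1 < y.1 ∨ (x.1 = y.1 ∧ x.2 < y.2)) : Lo t x y := by
  have h3 := ap_spec t x.2
  have h4 := ap_spec t y.2
  by_cases e1 : x.1 = y.1
  · by_cases e2 : y.2 < t + 2
    · refine Or.inl ⟨e1, by omega, e2, ?_⟩
      rcases h1 with h1 | h1 | h1 <;> rcases h2 with h2 | h2 | h2 <;> omega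
    · refine Or.inr (Or.inr ⟨e1, by omega, by omega, ?_, ?_, ?_⟩) <;>
        rcases h1 with h1 | h1 | h1 <;> rcases h2 with h2 | h2 | h2 <;> omega
  · refine Or.inr (Or.inl ⟨?_, ?_, ?_⟩) <;>
      rcases h1 with h1 | h1 | h1 <;> rcases h2 with h2 | h2 | h2 <;> omega

theorem fcat_chordal (h : ℕ) : IsChordal (fcat t N h) := by
  refine isChordal_of_rank _ toLex toLex.injective fun m a b ha hb hab h1 h2 => ?_
  have h3 := lo_of_lt ha h1
  have h4 := lo_of_lt hb h2
  have h5 : ¬ (a.1.val = b.1.val ∧ a.2.val = b.2.val) := fun h =>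
    hab (Prod.ext (Fin.ext h.1) (Fin.ext h.2))
  by_cases h6 : a.1.val < b.1.val ∨ (a.1.val = b.1.val ∧ a.2.val < b.2.val)
  · exact Or.inl (lo_lo h3 h4 h6)
  · exact Or.inr (lo_lo h4 h3 (by simp only; omega))

/-- distance to an earlier neighbour -/
def dl (t : ℕ) (m x : ℕ × ℕ) : ℕ :=
  if t + 2 ≤ m.2 then m.2 - 3 - ap t x.2 else if x.1 = m.1 then m.2 - 1 - x.2 else m.2 + t + 1 - x.2

theorem dl_lt (ht : 2 ≤ t) {m x : ℕ × ℕ} (h : Lo t x m) : dl t m x < t := by
  have h1 := ap_spec t x.2
  unfold dl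
  rcases h with h | h | h <;> split_ifs <;> omega

theorem dl_inj (ht : 2 ≤ t) {m x y : ℕ × ℕ} (h1 : Lo t x m) (h2 : Lo t y m)
    (h : dl t m x = dl t m y) : x.1 = y.1 ∧ x.2 = y.2 := by
  have h3 := ap_spec t x.2
  have h4 := ap_spec t y.2
  unfold dl at h
  rcases h1 with h1 | h1 | h1 <;> rcases h2 with h2 | h2 | h2 <;> split_ifs at h <;> omega

theorem fcat_cliqueNum (ht : 2 ≤ t) (hN : 0 < N) (h : ℕ) (hh : t < h) :
    (fcat t N h).cliqueNum = t + 1 := by
  classical
  apply le_antisymm
  · obtain ⟨K, hK⟩ := (fcat t N h).exists_isNClique_cliqueNum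
    rw [← hK.card_eq]
    rcases K.eq_empty_or_nonempty with rfl | hne
    · simp
    obtain ⟨m, hm, hmax⟩ := exists_max_image K toLex hne
    have h1 : ∀ a ∈ K.erase m, Lo t (a.1.val, a.2.val) (m.1.val, m.2.val) := fun a ha => by
      rw [mem_erase] at ha
      exact lo_of_lt (lt_of_le_of_ne (hmax a ha.2) (toLex.injective.ne ha.1))
        (hK.isClique hm ha.2 ha.1.symm)
    have h2 : (K.erase m).card ≤ (range t).card := by
      refine card_le_card_of_injOn (fun a => dl t (m.1.val, m.2.val) (a.1.val, a.2.val))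
        (fun a ha => mem_coe.2 (mem_range.2 (dl_lt ht (h1 a ha)))) fun a ha b hb hab => ?_
      have h3 := dl_inj ht (h1 a ha) (h1 b hb) hab
      exact Prod.ext (Fin.ext h3.1) (Fin.ext h3.2)
    rw [card_range, card_erase_of_mem hm] at h2
    omega
  · let φ : Fin (t + 1) → Fin N × Fin h := fun r => (⟨0, hN⟩, ⟨r.val, by omega⟩)
    have hφ : Function.Injective φ := fun a b hab => Fin.ext (congrArg (fun v => v.2.val) hab)
    have h1 : (fcat t N h).IsClique ((univ.image φ : Finset _) : Set _) := by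
      intro a ha b hb hab
      simp only [coe_image, coe_univ, Set.image_univ, Set.mem_range] at ha hb
      obtain ⟨a, rfl⟩ := ha
      obtain ⟨b, rfl⟩ := hb
      have h2 : a.val ≠ b.val := fun h => hab (by rw [Fin.ext h])
      have h3 := a.isLt
      have h4 := b.isLt
      rcases lt_or_gt_of_ne h2 with h5 | h5
      · exact Or.inl (Or.inl ⟨rfl, h5, by simp only [φ]; omega, by simp only [φ]; omega⟩)
      · exact Or.inr (Or.inl ⟨rfl, h5, by simp only [φ]; omega, by simp only [φ]; omega⟩)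
    have h2 := IsClique.card_le_cliqueNum (tc := h1)
    rwa [card_image_of_injective _ hφ, card_univ, Fintype.card_fin] at h2

theorem lift_list {h : ℕ} : ∀ l : List (ℕ × ℕ), (∀ z ∈ l, z.1 < N ∧ z.2 < h) →
    ∃ l' : List (Fin N × Fin h), l'.map (fun v => (v.1.val, v.2.val)) = l
  | [], _ => ⟨[], rfl⟩
  | z :: l, hl => by
    obtain ⟨l', h1⟩ := lift_list l fun u hu => hl u (List.mem_cons_of_mem _ hu)
    exact ⟨(⟨z.1, (hl z (by simp)).1⟩, ⟨z.2, (hl z (by simp)).2⟩) :: l', by simp [h1]⟩

/-- a smallest cover, read in the infinite caterpillar -/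
theorem fcat_cover (h k : ℕ) (hk0 : 0 < k) : ∃ T : Finset (ℕ × ℕ),
    (∀ l : List (ℕ × ℕ), l.Nodup → l.IsChain (Cat t).Adj → k ≤ l.length →
      ¬ ∀ z ∈ l, z.1 < N ∧ z.2 < h ∧ z ∉ T) ∧
    ∑ l ∈ range N, gc (· ∈ T) l h ≤ psi (fcat t N h) k := by
  classical
  obtain ⟨S, hS, hc⟩ : psi (fcat t N h) k ∈
      {m : ℕ | ∃ S : Finset (Fin N × Fin h), IsPathCover _ k S ∧ S.card = m} :=
    Nat.sInf_mem ⟨_, univ, fun u _ p _ _ => ⟨u, p.start_mem_support, mem_univ _⟩, rfl⟩
  let φ : Fin N × Fin h → ℕ × ℕ := fun v => (v.1.val, v.2.val)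
  refine ⟨S.image φ, fun l h1 h2 h3 h4 => ?_, ?_⟩
  · obtain ⟨l', h5⟩ := lift_list (N := N) (h := h) (l.take k) fun z hz =>
      ⟨(h4 z (List.mem_of_mem_take hz)).1, (h4 z (List.mem_of_mem_take hz)).2.1⟩
    have h6 : l'.length = k := by
      have := congrArg List.length h5
      rw [List.length_map, List.length_take] at this
      omega
    have h7 : l'.Nodup := List.Nodup.of_map _ (h5 ▸ h1.sublist (List.take_sublist _ _))
    have h8 : l'.IsChain (fcat t N h).Adj := by
      have := h2.take k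
      rwa [← h5, List.isChain_map] at this
    rcases l' with _ | ⟨b, l'⟩
    · simp at h6; omega
    obtain ⟨c, w, hw⟩ := exists_walk_of_chain _ l' b h8
    obtain ⟨z, hz, hzS⟩ := hS b c w (by rw [Walk.isPath_def, hw]; exact h7)
      (by rw [← Walk.length_support, hw]; exact h6)
    refine (h4 (φ z) (List.mem_of_mem_take (i := k) ?_)).2.2 (mem_image_of_mem _ hzS)
    rw [← h5, ← hw]
    exact List.mem_map_of_mem hz
  · rw [← hc]
    refine le_trans ?_ (card_image_le (f := φ))
    simp only [gc, Nat.count_eq_card_filter_range]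
    rw [← card_sigma]
    refine card_le_card_of_injOn (fun z => (z.1, z.2)) (fun z hz => ?_) fun z _ z' _ h => ?_
    · simp only [coe_sigma, Set.mem_sigma_iff, coe_filter, Set.mem_ofPred_eq] at hz
      exact hz.2.2
    · exact Sigma.ext (Prod.mk.inj h).1 (heq_of_eq (Prod.mk.inj h).2)

theorem fcat_psi (ht : 2 ≤ t) (a k : ℕ) (hk0 : 0 < k) (hk : k + 1 ≤ 2 * a + t) :
    (t + 1) * N ≤ 2 * psi (fcat t N (t + 2 + a)) k + (t + 1) := by
  obtain ⟨T, h1, h2⟩ := fcat_cover (t := t) (N := N) (t + 2 + a) k hk0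
  exact (count_lower ht a k hk h1).trans (Nat.add_le_add_right (Nat.mul_le_mul_left 2 h2) _)

theorem fcat_psi_one (ht : 2 ≤ t) (a k : ℕ) (hk0 : 0 < k) (hk : k ≤ a + 1) :
    t ≤ psi (fcat t 1 (t + 2 + a)) k := by
  obtain ⟨T, h1, h2⟩ := fcat_cover (t := t) (N := 1) (t + 2 + a) k hk0
  rw [sum_range_one] at h2
  exact (count_small ht one_pos a k hk h1).trans h2

end Pool.Agent.Lib.MP_708c97_co
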