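import Pool.Agent.Lib.MP_708c97_co.Defs
import Pool.Agent.Lib.MP_c98209_co.Chordal

/-!
The upper bound `(k - 1 + ω) * psi G k ≤ ω * n` for chordal graphs, through a perfect elimination order.
-/

set_option autoImplicit false

namespace Pool.Agent.Lib.MP_708c97_co

open SimpleGraph Finset Pool.Agent.Lib.MP_c98209_co

variable {V : Type} {G : SimpleGraph V}

theorem cycle_edges (n : ℕ) (a b : Fin (n + 3)) (h : (a - b).val = 1) :
    s(a, b) ∈ (cycleGraph.cycle n).edges := by
  have ha := a.isLt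
  have hb := b.isLt
  rw [Walk.mk_mem_edges_iff_exists]
  rw [Fin.sub_def] at h
  simp only at h
  by_cases hab : b.val ≤ a.val
  · rw [show n + 3 - b.val + a.val = (a.val - b.val) + (n + 3) by omega, Nat.add_mod_right,
      Nat.mod_eq_of_lt (by omega)] at h
    refine ⟨n + 3 - a.val, by rw [cycleGraph.length_cycle]; omega, ?_⟩
    rw [cycleGraph.getVert_cycle (by omega), cycleGraph.getVert_cycle (by omega)]
    congr 1 <;> apply Fin.ext <;> simp only <;> rw [Nat.mod_eq_of_lt (by omega)] <;> omega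
  · rw [Nat.mod_eq_of_lt (by omega)] at h
    refine ⟨0, by rw [cycleGraph.length_cycle]; omega, ?_⟩
    rw [cycleGraph.getVert_cycle (by omega), cycleGraph.getVert_cycle (by omega)]
    congr 1 <;> apply Fin.ext <;> simp only
    · rw [Nat.sub_zero, Nat.mod_self]; omega
    · rw [Nat.mod_eq_of_lt (by omega)]; omega

theorem IsChordal.chordal (h : IsChordal G) : Chordal G := by
  intro k hk
  obtain ⟨n, rfl⟩ : ∃ n, k = n + 3 := ⟨k - 3, by omega⟩
  refine ⟨fun e => ?_⟩
  obtain ⟨a, ha, b, hb, hab, hne⟩ := h _ ((cycleGraph.cycle n).map e.toHom)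
    ((Walk.isCycle_map_iff_of_injective e.injective).2 cycleGraph.isCycle_cycle)
    (by simpa using hk)
  rw [Walk.support_map, List.mem_map] at ha hb
  obtain ⟨a, -, rfl⟩ := ha
  obtain ⟨b, -, rfl⟩ := hb
  have h1 : (cycleGraph (n + 3)).Adj a b := e.map_adj_iff.1 hab
  apply hne
  rw [Walk.edges_map, List.mem_map]
  refine ⟨s(a, b), ?_, rfl⟩
  rcases cycleGraph_adj'.1 h1 with h2 | h2
  · exact cycle_edges n a b h2
  · rw [Sym2.eq_swap]; exact cycle_edges n b a h2

theorem exists_simpIn (h : Chordal G) (X : Finset V) (hX : X.Nonempty) :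
    ∃ s ∈ X, SimpIn G X s := by
  obtain ⟨w, hw⟩ := hX
  by_cases h1 : ∃ u ∈ X, ∃ v ∈ X, v ≠ u ∧ ¬ G.Adj u v
  · obtain ⟨u, hu, v, hv, hvu, hn⟩ := h1
    obtain ⟨s, hs, -, -, h2⟩ := h.qp X u hu v hv hvu hn
    exact ⟨s, hs, h2⟩
  · refine ⟨w, hw, fun a ha b hb _ _ hab => ?_⟩
    by_contra hn
    exact h1 ⟨a, ha, b, hb, hab.symm, hn⟩

/-- A perfect elimination order. -/
theorem exists_peo (h : Chordal G) (X : Finset V) :
    ∃ f : V → ℕ, Set.InjOn f X ∧ ∀ v ∈ X, ∀ a ∈ X, ∀ b ∈ X, f v < f a → f v < f b →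
      G.Adj v a → G.Adj v b → a ≠ b → G.Adj a b := by
  classical
  induction X using Finset.strongInduction with
  | H X ih =>
    rcases X.eq_empty_or_nonempty with rfl | hX
    · exact ⟨fun _ => 0, by simp, by simp⟩
    obtain ⟨s, hs, hsimp⟩ := exists_simpIn h X hX
    obtain ⟨f, hf, hf'⟩ := ih (X.erase s) (erase_ssubset hs)
    refine ⟨fun v => if v = s then 0 else f v + 1, fun a ha b hb hab => ?_,
      fun v hv a ha b hb h1 h2 h3 h4 h5 => ?_⟩
    · simp only at hab
      split_ifs at hab with h1 h2 h2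
      · rw [h1, h2]
      · exact hf (by simpa [h1] using ha) (by simpa [h2] using hb) (by omega)
    · by_cases hvs : v = s
      · subst hvs
        exact hsimp a ha b hb h3 h4 h5
      · simp only [hvs, if_false] at h1 h2
        split_ifs at h1 h2 with h6 h7
        · omega
        · omega
        · omega
        · exact hf' v (mem_erase.2 ⟨hvs, hv⟩) a (mem_erase.2 ⟨h6, ha⟩) b (mem_erase.2 ⟨‹_›, hb⟩)
            (by omega) (by omega) h3 h4 h5

theorem walk_closed {C Y : V → Prop} (hC : ∀ u w, C u → Y w → G.Adj u w → C w) :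
    ∀ {x y : V} (p : G.Walk x y), (∀ z ∈ p.support, Y z) → ∀ z ∈ p.support, (C z ↔ C x) := by
  intro x y p
  induction p with
  | nil => intro _ z hz; simp at hz; rw [hz]
  | @cons a b c hab q ih =>
    intro hY z hz
    rw [Walk.support_cons, List.mem_cons] at hz
    rcases hz with rfl | hz
    · rfl
    · rw [ih (fun z hz => hY z (by simp [hz])) z hz]
      exact ⟨fun h => hC b a h (hY a (by simp)) hab.symm, fun h => hC a b h (hY b (by simp)) hab⟩

theorem exists_cover [Fintype V] (f : V → ℕ) (hf : Function.Injective f)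
    (hp : ∀ v a b, f v < f a → f v < f b → G.Adj v a → G.Adj v b → a ≠ b → G.Adj a b)
    (k : ℕ) (X : Finset V) :
    ∃ S : Finset V, (k - 1 + G.cliqueNum) * S.card ≤ G.cliqueNum * X.card ∧
      ∀ (u v : V) (p : G.Walk u v), p.IsPath → p.length + 1 = k → (∀ z ∈ p.support, z ∈ X) →
        ∃ z ∈ p.support, z ∈ S := by
  classical
  induction X using Finset.strongInduction with
  | H X ih =>
    by_cases hex : ∃ j, ∃ (u v : V) (p : G.Walk u v), p.IsPath ∧ p.length + 1 = k ∧
        ∀ z ∈ p.support, z ∈ X ∧ f z ≤ j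
    swap
    · refine ⟨∅, by simp, fun u v p h1 h2 h3 => (hex ⟨univ.sup f, u, v, p, h1, h2, fun z hz =>
        ⟨h3 z hz, le_sup (f := f) (mem_univ z)⟩⟩).elim⟩
    obtain ⟨x, y, P, hP1, hP2, hP3⟩ := Nat.find_spec hex
    obtain ⟨v, hv, hmax⟩ := exists_max_image P.support.toFinset f ⟨x, by simp⟩
    rw [List.mem_toFinset] at hv
    have hvX := (hP3 v hv).1
    have hmin : ∀ (u w : V) (p : G.Walk u w), p.IsPath → p.length + 1 = k →
        ¬ ∀ z ∈ p.support, z ∈ X ∧ f z < f v := fun u w p h1 h2 h3 => by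
      have h4 := (h3 u p.start_mem_support).2
      have h5 := (hP3 v hv).2
      exact Nat.find_min hex (m := f v - 1) (by omega) ⟨u, w, p, h1, h2, fun z hz =>
        ⟨(h3 z hz).1, by have := (h3 z hz).2; omega⟩⟩
    let C : V → Prop := fun u =>
      Relation.ReflTransGen (fun a b => G.Adj a b ∧ f a < f b ∧ a ∈ X ∧ b ∈ X) u v
    have hCle : ∀ u, C u → u ∈ X ∧ f u ≤ f v := fun u hu => by
      induction hu using Relation.ReflTransGen.head_induction_on with
      | refl => exact ⟨hvX, le_rfl⟩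
      | head h1 _ h3 => exact ⟨h1.2.2.1, h1.2.1.le.trans h3.2⟩
    have key : ∀ u, C u → ∀ w ∈ X, G.Adj u w → C w ∨ (f v < f w ∧ G.Adj v w) := fun u hu => by
      induction hu using Relation.ReflTransGen.head_induction_on with
      | refl =>
        intro w hw hadj
        rcases lt_trichotomy (f w) (f v) with h | h | h
        · exact Or.inl (.single ⟨hadj.symm, h, hw, hvX⟩)
        · exact absurd (hf h) hadj.ne'
        · exact Or.inr ⟨h, hadj⟩
      | @head a c h1 h2 h3 =>
        intro w hw hadj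
        rcases lt_trichotomy (f w) (f a) with h | h | h
        · exact Or.inl (.head ⟨hadj.symm, h, hw, h1.2.2.1⟩ (.head h1 h2))
        · exact absurd (hf h) hadj.ne'
        · by_cases hwc : c = w
          · exact Or.inl (hwc ▸ h2)
          · exact h3 w hw (hp a c w h1.2.1 h h1.1 hadj hwc)
    set K := insert v (X.filter fun w => f v < f w ∧ G.Adj v w) with hK
    have hKc : G.IsClique (K : Set V) := by
      intro a ha b hb hab
      simp only [hK, coe_insert, coe_filter, Set.mem_insert_iff, Set.mem_ofPred_eq] at ha hb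
      rcases ha with rfl | ha <;> rcases hb with rfl | hb
      · exact absurd rfl hab
      · exact hb.2.2
      · exact ha.2.2.symm
      · exact hp v a b ha.2.1 hb.2.1 ha.2.2 hb.2.2 hab
    have hKle : K.card ≤ G.cliqueNum := IsClique.card_le_cliqueNum (tc := hKc)
    have hPC : ∀ z ∈ P.support, C z := by
      have h1 := walk_closed (G := G) (C := C) (Y := fun w => w ∈ X ∧ f w ≤ f v)
        (fun u w hu hw hadj => (key u hu w hw.1 hadj).resolve_right fun h => by
          have := h.1; have := hw.2; omega) P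
        fun z hz => ⟨(hP3 z hz).1, hmax z (List.mem_toFinset.2 hz)⟩
      exact fun z hz => (h1 z hz).2 ((h1 v hv).1 .refl)
    have hk : k ≤ (X.filter C).card := by
      rw [← hP2, ← Walk.length_support, ← List.toFinset_card_of_nodup hP1.support_nodup]
      exact card_le_card fun z hz => mem_filter.2
        ⟨(hP3 z (List.mem_toFinset.1 hz)).1, hPC z (List.mem_toFinset.1 hz)⟩
    obtain ⟨S, hS1, hS2⟩ := ih (X.filter fun u => ¬ (C u ∨ u ∈ K))
      (filter_ssubset.2 ⟨v, hvX, fun h => h (Or.inl .refl)⟩)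
    refine ⟨K ∪ S, ?_, fun a b p h1 h2 h3 => ?_⟩
    · have h1 := card_union_le K S
      have h2 := card_filter_add_card_filter_not (s := X) fun u => C u ∨ u ∈ K
      have h3 : (X.filter C).card + (K.erase v).card ≤ (X.filter fun u => C u ∨ u ∈ K).card := by
        rw [← card_union_of_disjoint]
        · refine card_le_card fun z hz => ?_
          rcases mem_union.1 hz with hz | hz
          · exact mem_filter.2 ⟨(mem_filter.1 hz).1, Or.inl (mem_filter.1 hz).2⟩
          · obtain ⟨h4, h5⟩ := mem_erase.1 hz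
            exact mem_filter.2 ⟨(mem_filter.1 ((mem_insert.1 h5).resolve_left h4)).1, Or.inr h5⟩
        · rw [Finset.disjoint_left]
          intro z h4 h5
          obtain ⟨h6, h7⟩ := mem_erase.1 h5
          have h8 := (mem_filter.1 ((mem_insert.1 h7).resolve_left h6)).2.1
          have h9 := (hCle z (mem_filter.1 h4).2).2
          omega
      have h4 := card_erase_add_one (s := K) (mem_insert_self v _)
      have h5 : k - 1 + K.card ≤ (X.filter fun u => C u ∨ u ∈ K).card := by omega
      calc (k - 1 + G.cliqueNum) * (K ∪ S).card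
          ≤ (k - 1) * K.card + G.cliqueNum * K.card + (k - 1 + G.cliqueNum) * S.card := by
            rw [← add_mul, ← mul_add]; gcongr
        _ ≤ (k - 1) * G.cliqueNum + G.cliqueNum * K.card +
            G.cliqueNum * (X.filter fun u => ¬ (C u ∨ u ∈ K)).card := by gcongr
        _ = G.cliqueNum * (k - 1 + K.card + (X.filter fun u => ¬ (C u ∨ u ∈ K)).card) := by ring
        _ ≤ G.cliqueNum * X.card := by rw [← h2]; gcongr
    · by_cases hpK : ∃ z ∈ p.support, z ∈ K
      · obtain ⟨z, hz, hzK⟩ := hpK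
        exact ⟨z, hz, mem_union_left _ hzK⟩
      have h4 := walk_closed (G := G) (C := C) (Y := fun w => w ∈ X ∧ w ∉ K)
        (fun u w hu hw hadj => (key u hu w hw.1 hadj).resolve_right fun h =>
          hw.2 (mem_insert_of_mem (mem_filter.2 ⟨hw.1, h⟩))) p
        fun z hz => ⟨h3 z hz, fun h => hpK ⟨z, hz, h⟩⟩
      have h5 : ¬ C a := fun ha => hmin a b p h1 h2 fun z hz =>
        ⟨h3 z hz, lt_of_le_of_ne (hCle z ((h4 z hz).2 ha)).2 fun h =>
          hpK ⟨z, hz, hf h ▸ mem_insert_self _ _⟩⟩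
      obtain ⟨z, hz, hzS⟩ := hS2 a b p h1 h2 fun z hz =>
        mem_filter.2 ⟨h3 z hz, fun h => h.elim (fun h => h5 ((h4 z hz).1 h)) fun h => hpK ⟨z, hz, h⟩⟩
      exact ⟨z, hz, mem_union_right _ hzS⟩

theorem psi_upper [Fintype V] (h : IsChordal G) (k : ℕ) :
    (k - 1 + G.cliqueNum) * psi G k ≤ G.cliqueNum * Fintype.card V := by
  obtain ⟨f, hf, hf'⟩ := exists_peo h.chordal univ
  obtain ⟨S, hS1, hS2⟩ := exists_cover (G := G) f (fun a b hab => hf (by simp) (by simp) hab)
    (fun v a b => hf' v (mem_univ _) a (mem_univ _) b (mem_univ _)) k univ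
  have h1 : psi G k ≤ S.card :=
    Nat.sInf_le ⟨S, fun u v p h1 h2 => hS2 u v p h1 h2 fun z _ => mem_univ z, rfl⟩
  exact (Nat.mul_le_mul_left _ h1).trans hS1

end Pool.Agent.Lib.MP_708c97_co
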